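import Pool.Agent.Lib.MP_e8e643_al.Four.Poly

/-! Transfer of the polynomial lemma to a valued field with residue field `k(y)`. -/

namespace Pool.Agent.Lib.MP_e8e643_al.Four

open Polynomial

theorem key_of {F Γ O k : Type*} [Field F] [LinearOrderedCommGroupWithZero Γ] [CommRing O] [Field k]
    [IsAlgClosed k] {p : ℕ} [NeZero p] (hp : p.Prime) (hk : (p : k) = 0) (v : Valuation F Γ)
    (res : O →+* k) (ev : O[X] →+* F) (h1 : ∀ P, v (ev P) ≤ 1)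
    (h2 : ∀ P, v (ev P) < 1 ↔ P.map res = 0)
    (h3 : ∀ a, v a ≤ 1 → ∃ P Q, v (ev Q) = 1 ∧ v (a * ev Q - ev P) < 1)
    (c d : Fin p → F) (W : F) (hc0 : c 0 = 0) (hd0 : d 0 = 0) (hc : ∀ s, v (c s) ≤ 1)
    (hd : ∀ s, v (d s) ≤ 1) (hW : v W = 1) :
    ¬ v ((1 - ev X) * (∑ s, c s ^ p * ev X ^ (s : ℕ)) * (∑ s, d s ^ p * ev X ^ (s : ℕ)) -
      ev X * W ^ p) < 1 := by
  classical
  intro h
  let V := v.valuationSubring
  let ρ := IsLocalRing.residue V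
  have hρ : ∀ a : V, ρ a = 0 ↔ v a < 1 := fun a =>
    (IsLocalRing.residue_eq_zero_iff a).trans (Valuation.mem_maximalIdeal_iff F v)
  let ev' : O[X] →+* V := ev.codRestrict V h1
  let θ := ρ.comp ev'
  have hθ : ∀ P, θ P = 0 ↔ P.map res = 0 := fun P => (hρ (ev' P)).trans (h2 P)
  let a : Fin p ⊕ Fin p ⊕ Unit → V := Sum.elim (fun s => ⟨c s, hc s⟩)
    (Sum.elim (fun s => ⟨d s, hd s⟩) fun _ => ⟨W, hW.le⟩)
  have h4 : ∀ b : V, ∃ P Q, θ Q ≠ 0 ∧ ρ b * θ Q = θ P := fun b => by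
    obtain ⟨P, Q, hQ, hP⟩ := h3 b b.2
    refine ⟨P, Q, fun h0 => ((hρ (ev' Q)).1 h0).ne hQ, ?_⟩
    have := (hρ (b * ev' Q - ev' P)).2 hP
    rwa [map_sub, map_mul, sub_eq_zero] at this
  choose P₀ Q₀ hQ₀ hP₀ using h4
  obtain ⟨Q, P, hQ, hP⟩ : ∃ (Q : O[X]) (P : Fin p ⊕ Fin p ⊕ Unit → O[X]),
      θ Q ≠ 0 ∧ ∀ i, ρ (a i) * θ Q = θ (P i) := by
    refine ⟨∏ i, Q₀ (a i), fun i => P₀ (a i) * ∏ j ∈ Finset.univ.erase i, Q₀ (a j), ?_, fun i => ?_⟩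
    · rw [map_prod]
      exact Finset.prod_ne_zero_iff.2 fun i _ => hQ₀ _
    · rw [← Finset.mul_prod_erase _ _ (Finset.mem_univ i), map_mul, map_mul, ← mul_assoc, hP₀]
  have h5 : (1 - θ X) * (∑ s, ρ (a (.inl s)) ^ p * θ X ^ (s : ℕ)) *
      (∑ s, ρ (a (.inr (.inl s))) ^ p * θ X ^ (s : ℕ)) = θ X * ρ (a (.inr (.inr ()))) ^ p := by
    have := (hρ ((1 - ev' X) * (∑ s, a (.inl s) ^ p * ev' X ^ (s : ℕ)) *
      (∑ s, a (.inr (.inl s)) ^ p * ev' X ^ (s : ℕ)) - ev' X * a (.inr (.inr ())) ^ p)).2 (by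
        convert h using 2
        push_cast
        rfl)
    simp only [map_sub, map_mul, map_sum, map_pow, map_one, sub_eq_zero] at this
    exact this
  have h6 : ∀ b : Fin p → Fin p ⊕ Fin p ⊕ Unit, ∑ s, θ (P (b s)) ^ p * θ X ^ (s : ℕ) =
      (∑ s, ρ (a (b s)) ^ p * θ X ^ (s : ℕ)) * θ Q ^ p := fun b => by
    rw [Finset.sum_mul]
    exact Finset.sum_congr rfl fun s _ => by rw [← hP]; ring
  refine core hp hk (fun s => (P (.inl s)).map res) (fun s => (P (.inr (.inl s))).map res)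
    ((P (.inr (.inr ())) * Q).map res) ?_ ?_ ?_ ?_
  · refine (hθ _).1 ?_
    rw [← hP, (hρ _).2 (by simp [a, hc0]), zero_mul]
  · refine (hθ _).1 ?_
    rw [← hP, (hρ _).2 (by simp [a, hd0]), zero_mul]
  · rw [Ne, ← hθ, map_mul, ← hP]
    exact mul_ne_zero (mul_ne_zero (fun h0 => ((hρ _).1 h0).ne hW) hQ) hQ
  · have := (hθ ((1 - X) * (∑ s, P (.inl s) ^ p * X ^ (s : ℕ)) *
      (∑ s, P (.inr (.inl s)) ^ p * X ^ (s : ℕ)) - X * (P (.inr (.inr ())) * Q) ^ p)).1 (by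
        simp only [map_sub, map_mul, map_sum, map_pow, map_one]
        rw [h6 .inl, h6 fun s => .inr (.inl s), ← hP]
        linear_combination (θ Q ^ p * θ Q ^ p) * h5)
    rw [← sub_eq_zero]
    simpa only [Polynomial.map_sub, Polynomial.map_mul, Polynomial.map_sum, Polynomial.map_pow,
      Polynomial.map_one, Polynomial.map_X] using this

end Pool.Agent.Lib.MP_e8e643_al.Four
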