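import Pool.Agent.Lib.MP_e8e643_al.Base
import Pool.Agent.Lib.MP_e8e643_al.Four.Res

/-! The valuation of `Base` together with its coarsening whose residue field is `k(y)`. -/

namespace Pool.Agent.Lib.MP_e8e643_al.Four

open Module MvPolynomial

universe u

/-- the valuation, a coarsening `c` that kills `y`, and the residue field obstruction -/
structure Setup2 (p : ℕ) [NeZero p] {F : Type*} [Field F] (Γ Γ' : Type*)
    [LinearOrderedCommGroupWithZero Γ] [LinearOrderedCommGroupWithZero Γ'] (ζ α β : F)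
    extends Setup p Γ ζ α β where
  c : Γ →*₀o Γ'
  cy : c y = 1
  cx : c x < 1
  cdist : ∀ (a b : F) (i k : ℕ), a ≠ 0 → b ≠ 0 → c (v a) * c x ^ i = c (v b) * c x ^ k →
    (i : ZMod p) = k
  csp : ∀ i : ℕ, c (v p) < c x ^ i
  csz : ∀ i : ℕ, c (v (ζ - 1)) < c x ^ i
  key : ∀ (a b : Fin p → F) (W : F), a 0 = 0 → b 0 = 0 → (∀ s, c (v (a s)) ≤ 1) →
    (∀ s, c (v (b s)) ≤ 1) → c (v W) = 1 →
    ¬ c (v ((1 - β) * (∑ s, a s ^ p * β ^ (s : ℕ)) * (∑ s, b s ^ p * β ^ (s : ℕ)) - β * W ^ p)) < 1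

theorem exists_step (Γ₀ : Type u) [LinearOrderedCommGroupWithZero Γ₀] :
    ∃ (Γ : Type u) (_ : LinearOrderedCommGroupWithZero Γ) (f : Γ₀ →*₀o Γ) (c : Γ →*₀o Γ₀) (t : Γ),
      t ≠ 0 ∧ t < 1 ∧ (∀ γ, c (f γ) = γ) ∧ c t = 1 ∧ (∀ γ < 1, ∀ i : ℕ, f γ < t ^ i) ∧
      ∀ γ δ (i k : ℕ), γ ≠ 0 → f γ * t ^ i = f δ * t ^ k → γ = δ ∧ i = k := by
  let R := LinearOrderedCommGroupWithZero.inr Γ₀ (WithZero (Multiplicative ℤ))
  let L := LinearOrderedCommGroupWithZero.inl Γ₀ (WithZero (Multiplicative ℤ))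
  let c := LinearOrderedCommGroupWithZero.fst Γ₀ (WithZero (Multiplicative ℤ))
  have h2 := LinearOrderedCommGroupWithZero.inl_mul_inr_eq_coe_toLex (α := Γ₀) one_ne_zero
    (WithZero.exp_ne_zero (a := (-1 : ℤ)))
  rw [map_one, one_mul] at h2
  have h0 : R (WithZero.exp (-1)) ≠ 0 := (map_ne_zero R).2 WithZero.exp_ne_zero
  have h1 : R (WithZero.exp (-1)) < 1 := by
    rw [h2, ← WithZero.coe_one, WithZero.coe_lt_coe]
    refine Prod.Lex.toLex_lt_toLex.2 (Or.inr ⟨Units.ext rfl, ?_⟩)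
    rw [← Units.val_lt_val]
    exact WithZero.exp_lt_exp.2 (show (-1 : ℤ) < 0 by norm_num)
  have h3 : ∀ γ, c (L γ) = γ := fun γ =>
    DFunLike.congr_fun (LinearOrderedCommGroupWithZero.fst_comp_inl Γ₀ _) γ
  have h4 : c (R (WithZero.exp (-1))) = 1 := by rw [h2]; rfl
  refine ⟨_, inferInstance, L, c, _, h0, h1, h3, h4, fun γ hγ i => lt_of_not_ge fun h => ?_,
    fun γ δ i k hγ h => ?_⟩
  · have := OrderHomClass.mono c h
    rw [map_pow, h4, one_pow, h3] at this
    exact not_lt.2 this hγ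
  · have := congrArg c h
    rw [map_mul, map_mul, map_pow, map_pow, h4, one_pow, one_pow, h3, h3, mul_one, mul_one] at this
    subst this
    exact ⟨rfl, (pow_right_strictAnti₀ (zero_lt_iff.2 h0) h1).injective
      (mul_left_cancel₀ ((map_ne_zero L).2 hγ) h)⟩

theorem setup_gen {K : Type*} [Field K] {p : ℕ} (hp : p.Prime) {ζ : K} (F : Type*) [Field F]
    [Algebra (MvPolynomial (Fin 2) K) F] [IsFractionRing (MvPolynomial (Fin 2) K) F]
    {Γ : Type*} [LinearOrderedCommGroupWithZero Γ] (v₀ : Valuation K Γ) {x y : Γ} (x0 : x ≠ 0)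
    (y0 : y ≠ 0) (x1 : x < 1) (y1 : y < 1) (hO : ∀ i j : ℕ, v₀ p < x ^ i * y ^ j)
    (hO' : ∀ i j : ℕ, v₀ (ζ - 1) < x ^ i * y ^ j)
    (hi : ∀ (γ δ : K) (i j k l : ℕ), γ ≠ 0 → δ ≠ 0 →
      v₀ γ * (x ^ i * y ^ j) = v₀ δ * (x ^ k * y ^ l) → i = k ∧ j = l) :
    ∃ S : Setup p Γ (algebraMap (MvPolynomial (Fin 2) K) F (C ζ))
        (algebraMap (MvPolynomial (Fin 2) K) F (X 0)) (algebraMap (MvPolynomial (Fin 2) K) F (X 1)),
      S.x = x ∧ S.y = y ∧ ∀ z, S.v (algebraMap (MvPolynomial (Fin 2) K) F z) =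
        nrm v₀ (basisMonomials (Fin 2) K) (fun m => x ^ (p * m 0) * y ^ (p * m 1)) z := by
  let g : (Fin 2 →₀ ℕ) → _ := fun m => x ^ (p * m 0) * y ^ (p * m 1)
  let b := basisMonomials (Fin 2) K
  have hd : Dist v₀ g := by
    refine ⟨fun m => mul_ne_zero (pow_ne_zero _ x0) (pow_ne_zero _ y0), fun m n c d hc hd h => ?_⟩
    obtain ⟨h1, h2⟩ := hi _ _ _ _ _ _ hc hd h
    ext i
    fin_cases i
    · exact Nat.eq_of_mul_eq_mul_left hp.pos h1
    · exact Nat.eq_of_mul_eq_mul_left hp.pos h2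
  have hb : ∀ m, b m = monomial m 1 := fun m => by simp [b]
  have h1 : nrm v₀ b g 1 = 1 := by
    have := nrm_basis v₀ b g 0
    simpa [hb, g] using this
  have hm : ∀ m z, nrm v₀ b g (b m * z) = g m * nrm v₀ b g z := fun m =>
    hd.op b (LinearMap.mulLeft K (b m)) (hd.1 m) fun n => by
      rw [LinearMap.mulLeft_apply, hb, hb, monomial_mul, one_mul, ← hb, nrm_basis]
      simp only [g, Finsupp.add_apply, mul_add, pow_add]
      ac_rfl
  let w := hd.val b h1 hm
  have hw : ∀ z, w z = nrm v₀ b g z := fun _ => rfl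
  have hS : nonZeroDivisors (MvPolynomial (Fin 2) K) ≤ w.supp.primeCompl := fun z hz =>
    hd.nrm_ne b (nonZeroDivisors.ne_zero hz)
  have hC : ∀ c : K, w (C c) = v₀ c := fun c => by
    rw [hw, ← mul_one (C c), ← smul_eq_C_mul, nrm_smul, h1, mul_one]
  have hX : ∀ i, w (X i) = g (Finsupp.single i 1) := fun i => by
    rw [hw, ← nrm_basis v₀ b g, hb]
    rfl
  have hval : ∀ c : F, c ≠ 0 → ∃ (γ δ : K) (m n : Fin 2 →₀ ℕ), γ ≠ 0 ∧ δ ≠ 0 ∧
      w.extendToLocalization hS F c * (v₀ δ * g n) = v₀ γ * g m := by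
    intro c hc
    obtain ⟨a, s, hs, rfl⟩ := IsFractionRing.div_surjective (MvPolynomial (Fin 2) K) c
    have ha : a ≠ 0 := by rintro rfl; simp at hc
    obtain ⟨m, hm, em⟩ := exists_nrm v₀ b g ha
    obtain ⟨n, hn, en⟩ := exists_nrm v₀ b g (nonZeroDivisors.ne_zero hs)
    refine ⟨_, _, m, n, hm, hn, ?_⟩
    rw [map_div₀, Valuation.extendToLocalization_apply_map_apply,
      Valuation.extendToLocalization_apply_map_apply, hw, hw]
    exact (congrArg _ en.symm).trans ((div_mul_cancel₀ _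
      (hd.nrm_ne b (nonZeroDivisors.ne_zero hs))).trans em)
  refine ⟨⟨w.extendToLocalization hS F, x, y, x0, y0, x1, y1, ?_, ?_, ?_, ?_, ?_⟩, rfl, rfl,
    fun z => (w.extendToLocalization_apply_map_apply hS F z).trans (hw z)⟩
  · rw [Valuation.extendToLocalization_apply_map_apply, hX]
    simp [g]
  · rw [Valuation.extendToLocalization_apply_map_apply, hX]
    simp [g]
  · intro c d i j k l hc hd h
    obtain ⟨γ, δ, m, n, hγ, hδ, e⟩ := hval c hc
    obtain ⟨γ', δ', m', n', hγ', hδ', e'⟩ := hval d hd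
    have key : v₀ (γ * δ') * (x ^ (p * m 0 + p * n' 0 + i) * y ^ (p * m 1 + p * n' 1 + j)) =
        v₀ (γ' * δ) * (x ^ (p * m' 0 + p * n 0 + k) * y ^ (p * m' 1 + p * n 1 + l)) := by
      calc _ = (v₀ γ * g m) * (v₀ δ' * g n') * (x ^ i * y ^ j) := by
            simp only [g, map_mul, pow_add]; ac_rfl
        _ = (w.extendToLocalization hS F c * (x ^ i * y ^ j)) * (v₀ δ * g n) * (v₀ δ' * g n') := by
            rw [← e]; ac_rfl
        _ = (v₀ γ' * g m') * (v₀ δ * g n) * (x ^ k * y ^ l) := by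
            rw [h, ← e']; ac_rfl
        _ = _ := by simp only [g, map_mul, pow_add]; ac_rfl
    obtain ⟨h1, h2⟩ := hi _ _ _ _ _ _ (mul_ne_zero hγ hδ') (mul_ne_zero hγ' hδ) key
    have h1' := congrArg (Nat.cast : ℕ → ZMod p) h1
    have h2' := congrArg (Nat.cast : ℕ → ZMod p) h2
    simpa using And.intro h1' h2'
  · intro i j
    rw [← map_natCast (algebraMap (MvPolynomial (Fin 2) K) F),
      Valuation.extendToLocalization_apply_map_apply, ← map_natCast (C : K →+* _), hC]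
    exact hO i j
  · intro i j
    rw [← map_one (algebraMap (MvPolynomial (Fin 2) K) F), ← map_sub,
      Valuation.extendToLocalization_apply_map_apply, ← C_1, ← map_sub, hC]
    exact hO' i j

/-- the residue field of the coarse valuation is generated by the second variable -/
theorem key_coarse {K : Type*} [Field K] {p : ℕ} [NeZero p] (hp : p.Prime) (F : Type*) [Field F]
    [Algebra (MvPolynomial (Fin 2) K) F] [IsFractionRing (MvPolynomial (Fin 2) K) F]
    (O : ValuationSubring K) (hO : O.valuation p < 1) {Γ : Type*}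
    [LinearOrderedCommGroupWithZero Γ] (f : O.ValueGroup →*₀o Γ) (hf : StrictMono f) {x : Γ}
    (x0 : x ≠ 0) (hi : ∀ γ δ (i k : ℕ), γ ≠ 0 → f γ * x ^ i = f δ * x ^ k → γ = δ ∧ i = k)
    (v : Valuation F Γ) (β : F) (hβ : β = algebraMap (MvPolynomial (Fin 2) K) F (X 1))
    (ha : ∀ z m, f (O.valuation (coeff m z)) * x ^ (p * m 0) ≤
      v (algebraMap (MvPolynomial (Fin 2) K) F z))
    (hb : ∀ z ≠ 0, ∃ m, coeff m z ≠ 0 ∧ v (algebraMap (MvPolynomial (Fin 2) K) F z) =
      f (O.valuation (coeff m z)) * x ^ (p * m 0))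
    (a b : Fin p → F) (W : F) (ha0 : a 0 = 0) (hb0 : b 0 = 0) (ha1 : ∀ s, v (a s) ≤ 1)
    (hb1 : ∀ s, v (b s) ≤ 1) (hW : v W = 1) :
    ¬ v ((1 - β) * (∑ s, a s ^ p * β ^ (s : ℕ)) * (∑ s, b s ^ p * β ^ (s : ℕ)) - β * W ^ p) < 1 := by
  classical
  set ι := algebraMap (MvPolynomial (Fin 2) K) F with hι
  let res := (algebraMap _ (AlgebraicClosure (IsLocalRing.ResidueField O))).comp
    (IsLocalRing.residue O)
  have hres : ∀ c : O, res c = 0 ↔ O.valuation c < 1 := fun c =>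
    (map_eq_zero (algebraMap (IsLocalRing.ResidueField O) _)).trans
      ((IsLocalRing.residue_eq_zero_iff c).trans (O.valuation_lt_one_iff c))
  let e₀ : Polynomial O →+* MvPolynomial (Fin 2) K :=
    Polynomial.eval₂RingHom ((C : K →+* _).comp O.subtype) (X 1)
  have he : ∀ n c, e₀ (Polynomial.monomial n c) = monomial (Finsupp.single 1 n) (c : K) := by
    intro n c
    simp [e₀, C_mul_X_pow_eq_monomial]
  have hmon : ∀ m c, v (ι (monomial m c)) = f (O.valuation c) * x ^ (p * m 0) := by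
    intro m c
    by_cases hc : c = 0
    · simp [hc]
    obtain ⟨n, hn, h⟩ := hb (monomial m c) (by simpa using hc)
    obtain rfl : m = n := by
      by_contra h0
      exact hn (by rw [coeff_monomial, if_neg h0])
    rw [h, coeff_monomial, if_pos rfl]
  have hm1 : ∀ n c, v (ι (e₀ (Polynomial.monomial n c))) = f (O.valuation c) := by
    intro n c
    rw [he, hmon]
    simp
  have h1 : ∀ P, v (ι (e₀ P)) ≤ 1 := fun P => by
    induction P using Polynomial.induction_on' with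
    | add P Q hP hQ => rw [map_add, map_add]; exact v.map_add_le hP hQ
    | monomial n c => rw [hm1, ← map_one f]; exact hf.monotone (O.valuation_le_one c)
  have hco : ∀ P j, coeff (Finsupp.single 1 j) (e₀ P) = (P.coeff j : K) := fun P j => by
    induction P using Polynomial.induction_on' with
    | add P Q hP hQ => simp only [map_add, coeff_add, hP, hQ, Polynomial.coeff_add]; rfl
    | monomial n c =>
      rw [he, coeff_monomial, Polynomial.coeff_monomial]
      by_cases h : n = j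
      · simp [h]
      · rw [if_neg h, if_neg fun h0 => h (Finsupp.single_injective _ h0)]; rfl
  have lead : ∀ (γ : K) (i : ℕ) z, γ ≠ 0 → v (ι z) ≤ v (ι (monomial (Finsupp.single 0 i) γ)) →
      ∃ P, v (ι z - ι (monomial (Finsupp.single 0 i) γ) * ι (e₀ P)) <
        v (ι (monomial (Finsupp.single 0 i) γ)) := by
    intro γ i z hγ hz
    have hγ' : O.valuation γ ≠ 0 := (Valuation.ne_zero_iff _).2 hγ
    have ht : v (ι (monomial (Finsupp.single 0 i) γ)) = f (O.valuation γ) * x ^ (p * i) := by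
      rw [hmon]; simp
    have ht0 : v (ι (monomial (Finsupp.single 0 i) γ)) ≠ 0 :=
      ht ▸ mul_ne_zero ((map_ne_zero f).2 hγ') (pow_ne_zero _ x0)
    have : ∀ m, ∃ P, v (ι (monomial m (coeff m z)) -
        ι (monomial (Finsupp.single 0 i) γ) * ι (e₀ P)) <
        v (ι (monomial (Finsupp.single 0 i) γ)) := fun m => by
      have h2 := (ha z m).trans hz
      by_cases hm : m 0 = i
      · rw [ht, hm] at h2
        have h3 := hf.le_iff_le.1 (le_of_mul_le_mul_right h2 (zero_lt_iff.2 (pow_ne_zero _ x0)))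
        have h4 : coeff m z / γ ∈ O := by
          rw [← O.valuation_le_one_iff, map_div₀]
          exact div_le_one_of_le₀ h3 zero_le
        refine ⟨Polynomial.monomial (m 1) ⟨_, h4⟩, ?_⟩
        have h5 : Finsupp.single 0 i + Finsupp.single 1 (m 1) = m := by
          ext j
          fin_cases j <;> simp [hm]
        rw [he, ← map_mul, monomial_mul, h5, mul_div_cancel₀ _ hγ, sub_self, map_zero]
        exact zero_lt_iff.2 ht0
      · refine ⟨0, ?_⟩
        rw [map_zero, map_zero, mul_zero, sub_zero, hmon]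
        refine lt_of_le_of_ne h2 fun h3 => hm ?_
        rw [ht] at h3
        exact Nat.eq_of_mul_eq_mul_left hp.pos (hi _ _ _ _ hγ' h3.symm).2.symm
    choose P hP using this
    refine ⟨∑ m ∈ z.support, P m, ?_⟩
    have e : ι z - ι (monomial (Finsupp.single 0 i) γ) * ι (e₀ (∑ m ∈ z.support, P m)) =
        ∑ m ∈ z.support, (ι (monomial m (coeff m z)) -
          ι (monomial (Finsupp.single 0 i) γ) * ι (e₀ (P m))) := by
      rw [Finset.sum_sub_distrib, ← map_sum, support_sum_monomial_coeff, ← Finset.mul_sum, map_sum,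
        map_sum]
    rw [e]
    exact v.map_sum_lt ht0 fun m _ => hP m
  have := key_of hp ((map_natCast res p).symm.trans ((hres p).2 hO)) v res (ι.comp e₀) h1
    (fun P => ⟨fun h => ?_, fun h => ?_⟩) (fun c hc => ?_) a b W ha0 hb0 ha1 hb1 hW
  · simpa [e₀, hβ] using this
  · ext j
    have h2 := (ha (e₀ P) (Finsupp.single 1 j)).trans_lt h
    rw [hco, ← map_one f] at h2
    rw [Polynomial.coeff_map, Polynomial.coeff_zero, hres, ← hf.lt_iff_lt]
    simpa using h2
  · rw [P.as_sum_support, map_sum]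
    refine v.map_sum_lt one_ne_zero fun j _ => ?_
    rw [RingHom.comp_apply, hm1, ← map_one f, hf.lt_iff_lt, ← hres, ← Polynomial.coeff_map, h]
    rfl
  · obtain ⟨z, s, hs, rfl⟩ := IsFractionRing.div_surjective (MvPolynomial (Fin 2) K) c
    obtain ⟨m, hm, h⟩ := hb s (nonZeroDivisors.ne_zero hs)
    have ht : v (ι s) = v (ι (monomial (Finsupp.single 0 (m 0)) (coeff m s))) := by
      rw [h, hmon]; simp
    have hs0 : ι s ≠ 0 := IsFractionRing.to_map_ne_zero_of_mem_nonZeroDivisors hs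
    have hs1 : 0 < v (ι s) := zero_lt_iff.2 ((Valuation.ne_zero_iff v).2 hs0)
    obtain ⟨P, hP⟩ := lead _ (m 0) z hm (by
      rw [map_div₀, div_le_one₀ hs1] at hc
      exact hc.trans ht.le)
    obtain ⟨Q, hQ⟩ := lead _ (m 0) s hm ht.le
    set t := ι (monomial (Finsupp.single 0 (m 0)) (coeff m s))
    have ht1 : 0 < v t := ht ▸ hs1
    have ht0 : t ≠ 0 := (Valuation.ne_zero_iff v).1 ht1.ne'
    refine ⟨P, Q, ?_, ?_⟩
    · rw [← ht, v.map_sub_swap] at hQ
      have := v.map_eq_of_sub_lt hQ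
      rw [map_mul, ht] at this
      exact mul_left_cancel₀ ht1.ne' (this.trans (mul_one _).symm)
    · have e : ι z / ι s * ι (e₀ Q) - ι (e₀ P) =
          (ι z - t * ι (e₀ P) - ι z / ι s * (ι s - t * ι (e₀ Q))) / t := by
        field_simp
        ring
      rw [RingHom.comp_apply, RingHom.comp_apply, e, map_div₀, div_lt_one₀ ht1]
      refine v.map_sub_lt hP ?_
      rw [map_mul]
      exact (mul_le_of_le_one_left' hc).trans_lt hQ

theorem exists_setup2 (K : Type u) [Field K] [CharZero K] {p : ℕ} [NeZero p] (hp : p.Prime) {ζ : K}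
    (hζ : ζ ^ p = 1) (F : Type*) [Field F] [Algebra (MvPolynomial (Fin 2) K) F]
    [IsFractionRing (MvPolynomial (Fin 2) K) F] :
    ∃ (Γ Γ' : Type u) (_ : LinearOrderedCommGroupWithZero Γ) (_ : LinearOrderedCommGroupWithZero Γ'),
      Nonempty (Setup2 p Γ Γ' (algebraMap (MvPolynomial (Fin 2) K) F (C ζ))
        (algebraMap (MvPolynomial (Fin 2) K) F (X 0))
        (algebraMap (MvPolynomial (Fin 2) K) F (X 1))) := by
  obtain ⟨O, hO, hO'⟩ := exists_sub K hp hζ
  obtain ⟨Γ', _, f₁, c₁, x, x0, x1, hc₁, hx, hs₁, hi₁⟩ := exists_step O.ValueGroup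
  obtain ⟨Γ, _, f₂, c₂, y, y0, y1, hc₂, hy, hs₂, hi₂⟩ := exists_step Γ'
  have hf₁ : StrictMono f₁ := (OrderHomClass.mono f₁).strictMono_of_injective
    (Function.LeftInverse.injective hc₁)
  have hf₂ : StrictMono f₂ := (OrderHomClass.mono f₂).strictMono_of_injective
    (Function.LeftInverse.injective hc₂)
  let v₀ := O.valuation.map (f₂.comp f₁).toMonoidWithZeroHom (f₂.comp f₁).monotone'
  have hv₀ : ∀ c, v₀ c = f₂ (f₁ (O.valuation c)) := fun _ => rfl
  have hs : ∀ γ < 1, ∀ i j : ℕ, f₂ (f₁ γ) < f₂ x ^ i * y ^ j := fun γ hγ i j =>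
    lt_of_not_ge fun h => by
      have := OrderHomClass.mono c₂ h
      rw [map_mul, map_pow, map_pow, hy, hc₂, hc₂, one_pow, mul_one] at this
      exact not_lt.2 this (hs₁ γ hγ i)
  obtain ⟨S, hSx, hSy, hv⟩ := setup_gen hp (ζ := ζ) F v₀ ((map_ne_zero f₂).2 x0) y0
    (by rw [← map_one f₂]; exact hf₂ x1) y1 (hs _ hO) (hs _ hO') fun γ δ i j k l hγ hδ h => by
      have hγ' : O.valuation γ ≠ 0 := (Valuation.ne_zero_iff _).2 hγ
      rw [hv₀, hv₀, ← mul_assoc, ← mul_assoc, ← map_pow, ← map_pow, ← map_mul, ← map_mul] at h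
      obtain ⟨h1, h2⟩ := hi₂ _ _ _ _
        (mul_ne_zero ((map_ne_zero f₁).2 hγ') (pow_ne_zero _ x0)) h
      exact ⟨(hi₁ _ _ _ _ hγ' h1).2, h2⟩
  have hcx : c₂ S.x = x := by rw [hSx, hc₂]
  have hterm : ∀ (c : K) (i j : ℕ), c₂ (v₀ c * (f₂ x ^ i * y ^ j)) = f₁ (O.valuation c) * x ^ i := by
    intro c i j
    rw [map_mul, map_mul, map_pow, map_pow, hy, hv₀, hc₂, hc₂, one_pow, mul_one]
  have hb : ∀ z : MvPolynomial (Fin 2) K, z ≠ 0 → ∃ m, coeff m z ≠ 0 ∧
      c₂ (S.v (algebraMap _ F z)) = f₁ (O.valuation (coeff m z)) * x ^ (p * m 0) := fun z hz => by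
    obtain ⟨m, hm, h⟩ := exists_nrm v₀ (basisMonomials (Fin 2) K)
      (fun m => f₂ x ^ (p * m 0) * y ^ (p * m 1)) hz
    exact ⟨m, hm, by rw [hv, h, hterm]; rfl⟩
  have hC : ∀ c : K, c₂ (S.v (algebraMap _ F (C c : MvPolynomial (Fin 2) K))) =
      f₁ (O.valuation c) := fun c => by
    have h1 := hv 1
    rw [map_one, map_one] at h1
    rw [hv, ← mul_one (C c), ← smul_eq_C_mul, nrm_smul, ← h1, mul_one, hv₀, hc₂]
  have hval : ∀ a : F, a ≠ 0 → ∃ (γ δ : O.ValueGroup) (m n : ℕ), γ ≠ 0 ∧ δ ≠ 0 ∧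
      c₂ (S.v a) * (f₁ δ * x ^ (p * n)) = f₁ γ * x ^ (p * m) := by
    intro a ha
    obtain ⟨z, s, hs, rfl⟩ := IsFractionRing.div_surjective (MvPolynomial (Fin 2) K) a
    obtain ⟨m, hm, em⟩ := hb z (by rintro rfl; simp at ha)
    obtain ⟨n, hn, en⟩ := hb s (nonZeroDivisors.ne_zero hs)
    refine ⟨_, _, m 0, n 0, (Valuation.ne_zero_iff O.valuation).2 hm,
      (Valuation.ne_zero_iff O.valuation).2 hn, ?_⟩
    rw [map_div₀, map_div₀, ← en, ← em, div_mul_cancel₀]
    exact (map_ne_zero _).2 ((map_ne_zero _).2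
      (IsFractionRing.to_map_ne_zero_of_mem_nonZeroDivisors hs))
  refine ⟨Γ, Γ', inferInstance, inferInstance, ⟨⟨S, c₂, hSy ▸ hy, hcx ▸ x1, ?_, ?_, ?_, ?_⟩⟩⟩
  · intro a b i k ha hb h
    rw [hcx] at h
    obtain ⟨γ, δ, m, n, hγ, hδ, e⟩ := hval a ha
    obtain ⟨γ', δ', m', n', hγ', hδ', e'⟩ := hval b hb
    have key : f₁ (γ * δ') * x ^ (p * m + p * n' + i) = f₁ (γ' * δ) * x ^ (p * m' + p * n + k) := by
      calc _ = (f₁ γ * x ^ (p * m)) * (f₁ δ' * x ^ (p * n')) * x ^ i := by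
            simp only [map_mul, pow_add]; ac_rfl
        _ = (c₂ (S.v a) * x ^ i) * (f₁ δ * x ^ (p * n)) * (f₁ δ' * x ^ (p * n')) := by
            rw [← e]; ac_rfl
        _ = (f₁ γ' * x ^ (p * m')) * (f₁ δ * x ^ (p * n)) * x ^ k := by
            rw [h, ← e']; simp only [mul_assoc, mul_comm, mul_left_comm]
        _ = _ := by simp only [map_mul, pow_add]; ac_rfl
    simpa using congrArg (Nat.cast : ℕ → ZMod p) (hi₁ _ _ _ _ (mul_ne_zero hγ hδ') key).2
  · intro i
    rw [← map_natCast (algebraMap (MvPolynomial (Fin 2) K) F), ← map_natCast (C : K →+* _), hC, hcx]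
    exact hs₁ _ hO i
  · intro i
    rw [← map_one (algebraMap (MvPolynomial (Fin 2) K) F), ← map_sub, ← C_1, ← map_sub, hC, hcx]
    exact hs₁ _ hO' i
  · exact key_coarse hp F O hO f₁ hf₁ x0 hi₁ (S.v.map c₂.toMonoidWithZeroHom c₂.monotone') _ rfl
      (fun z m => by
        have := OrderHomClass.mono c₂ (le_nrm v₀ (basisMonomials (Fin 2) K)
          (fun m => f₂ x ^ (p * m 0) * y ^ (p * m 1)) z m)
        rw [hterm, ← hv] at this
        exact this) hb

end Pool.Agent.Lib.MP_e8e643_al.Four
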