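import Pool.Agent.Results.MP_e8e643_al.FourAlgebras

/-! The statement with `p + 2` algebras follows from the statement with four algebras. -/

namespace Pool.Agent.Lib.MP_e8e643_al.Four

open scoped TensorProduct

universe u

theorem few :
    ∀ (p : ℕ), p.Prime → ∀ (K : Type u) [Field K] [CharZero K] [IsAlgClosed K],
      ∃ A : Fin (p + 2) → CSA.{u, u} (FractionRing (MvPolynomial (Fin 2) K)),
        (∀ i, Module.finrank (FractionRing (MvPolynomial (Fin 2) K)) (A i) = p ^ 2 ∧
          ∃ n : ℕ, Nonempty ((⨂[FractionRing (MvPolynomial (Fin 2) K)] _ : Fin p, A i)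
            ≃ₐ[FractionRing (MvPolynomial (Fin 2) K)]
              Matrix (Fin n) (Fin n) (FractionRing (MvPolynomial (Fin 2) K)))) ∧
        ∀ (L : Type u) [Field L] [Algebra (FractionRing (MvPolynomial (Fin 2) K)) L],
          Module.finrank (FractionRing (MvPolynomial (Fin 2) K)) L ∣ p →
          ¬ ∀ i, ∃ n : ℕ, Nonempty (L ⊗[FractionRing (MvPolynomial (Fin 2) K)] A i
            ≃ₐ[L] Matrix (Fin n) (Fin n) L) := by
  intro p hp K _ _ _
  obtain ⟨A, h1, h2⟩ := Pool.Agent.Results.MP_e8e643_al.FourAlgebras.result p hp K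
  refine ⟨fun i => A ⟨min i 3, by omega⟩, fun i => h1 _, fun L _ _ hL h => h2 L hL fun j => ?_⟩
  have h3 := h ⟨j, by have := hp.two_le; omega⟩
  have e : (⟨min (j : ℕ) 3, by omega⟩ : Fin 4) = j := Fin.ext (by simp; omega)
  exact e ▸ h3

end Pool.Agent.Lib.MP_e8e643_al.Four
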