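import Pool.Agent.Lib.MP_e8e643_al.Core

/-! The leading form of a `p`-th power in a symbol algebra `(1 + m, b)` with `b` a unit. -/

namespace Pool.Agent.Lib.MP_e8e643_al.Four

open Module

universe u

variable {Γ : Type*} [LinearOrderedCommGroupWithZero Γ]

section ring

variable {A : Type*} [Ring A] (w : Valuation A Γ)

theorem lt_mul {a b γ δ : Γ} (h1 : a < γ) (h2 : b ≤ δ) (hδ : 0 < δ) : a * b < γ * δ :=
  (mul_le_mul_right h2 _).trans_lt (mul_lt_mul_of_pos_right h1 hδ)

theorem mul_lt {a b γ δ : Γ} (h1 : a ≤ γ) (h2 : b < δ) (hγ : 0 < γ) : a * b < γ * δ := by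
  rw [mul_comm a, mul_comm γ]; exact lt_mul h2 h1 hγ

theorem cong_mul {a a' b b' : A} {γ δ : Γ} (h1 : w (a - a') < γ) (h2 : w (b - b') < δ)
    (ha : w a' ≤ γ) (hb : w b ≤ δ) : w (a * b - a' * b') < γ * δ := by
  rw [show a * b - a' * b' = (a - a') * b + a' * (b - b') by noncomm_ring]
  refine w.map_add_lt ?_ ?_ <;> rw [map_mul]
  · exact lt_mul h1 hb (zero_le.trans_lt h2)
  · exact mul_lt ha h2 (zero_le.trans_lt h1)

theorem cong_pow {a a' : A} {γ : Γ} (h1 : w (a - a') < γ) (ha : w a' ≤ γ) (n : ℕ) :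
    w (a ^ n - a' ^ n) < γ ^ n := by
  induction n with
  | zero => simp
  | succ n ih =>
    rw [pow_succ, pow_succ, pow_succ]
    refine cong_mul w ih h1 (by rw [map_pow]; exact pow_le_pow_left' ha n) ?_
    rw [← sub_add_cancel a a']
    exact w.map_add_le h1.le ha

theorem cong_trans {a b c : A} {γ : Γ} (h1 : w (a - b) < γ) (h2 : w (b - c) < γ) :
    w (a - c) < γ := by
  rw [← sub_add_sub_cancel a b c]
  exact w.map_add_lt h1 h2

theorem frob_two {p : ℕ} (hp : p.Prime) {x y : A} (h : Commute x y) (hx : w x ≤ 1) (hy : w y ≤ 1) :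
    w ((x + y) ^ p - (x ^ p + y ^ p)) ≤ w p := by
  rw [h.add_pow_prime_eq' hp, add_sub_cancel_left, map_mul]
  refine mul_le_of_le_one_right' (w.map_sum_le fun k _ => ?_)
  exact w.integer.mul_mem (w.integer.mul_mem (w.integer.pow_mem hx _) (w.integer.pow_mem hy _))
    (natCast_mem w.integer _)

theorem frob_sum {p : ℕ} (hp : p.Prime) (hw : w p < 1) {ι : Type*} (f : ι → A)
    (hc : ∀ i j, Commute (f i) (f j)) (hf : ∀ i, w (f i) ≤ 1) (s : Finset ι) :
    w ((∑ i ∈ s, f i) ^ p - ∑ i ∈ s, f i ^ p) < 1 := by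
  classical
  induction s using Finset.induction_on with
  | empty => simp [hp.ne_zero]
  | insert a s ha ih =>
    rw [Finset.sum_insert ha, Finset.sum_insert ha]
    refine cong_trans w ((frob_two w hp (Commute.sum_right _ _ _ fun j _ => hc a j) (hf a)
      (w.map_sum_le fun j _ => hf j)).trans_lt hw) ?_
    rwa [add_sub_add_left_eq_sub]

end ring

theorem loc {F : Type u} [Field F] {A : Type u} [Ring A] [Algebra F A] {q : ℕ} {ζ a b m : F}
    (S : Sym (q + 1) ζ 1 a b A) (hp : (q + 1).Prime) (v : Valuation F Γ) (w : Valuation A Γ) {e : Γ}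
    (ha : a = 1 ^ (q + 1) + m) (hsm : ∀ (c : F) x, w (c • x) = v c * w x) (hE : w S.E = e)
    (hJ : w S.J = 1) (hle : ∀ x k, v (S.bas.repr x k) * e ^ (k.1 : ℕ) ≤ w x) (he0 : 0 < e)
    (he1 : e < 1) (hm : v m = e ^ (q + 1)) (hpe : v ((q + 1 : ℕ) : F) < e ^ (q + 1))
    (hz : v (ζ - 1) < e)
    (hd : ∀ c ≠ 0, ∀ r : Fin (q + 1), v c * e ^ (r : ℕ) = e ^ q → r = Fin.last q)
    (z : A) (hw : w z = e ^ q)
    (htr : v (∑ r : Fin (q + 1), (-1) ^ (r : ℕ) * S.bas.repr z (r, 0)) ≤ w z) :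
    ∃ c : Fin (q + 1) → F, c 0 = 0 ∧ (∀ s, v (c s) ≤ 1) ∧
      w (z ^ (q + 1) - algebraMap F A (m ^ q * ∑ s, c s ^ (q + 1) * b ^ (s : ℕ))) <
        (e ^ q) ^ (q + 1) := by
  classical
  have hq : q ≠ 0 := by have := hp.two_le; omega
  have hal : ∀ c, w (algebraMap F A c) = v c := fun c => by
    rw [Algebra.algebraMap_eq_smul_one, hsm, map_one, mul_one]
  have heq : 0 < e ^ q := pow_pos he0 q
  have hlt : ∀ r ≠ Fin.last q, ∀ s, v (S.bas.repr z (r, s)) * e ^ (r : ℕ) < e ^ q := by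
    intro r hr s
    refine lt_of_le_of_ne (hw ▸ hle z (r, s)) fun h => hr (hd _ (fun h0 => ?_) r h)
    rw [h0, map_zero, zero_mul] at h
    exact heq.ne h
  have hc1 : ∀ s, v (S.bas.repr z (Fin.last q, s)) ≤ 1 := fun s =>
    le_of_mul_le_mul_right ((hle z (Fin.last q, s)).trans (hw.trans (one_mul _).symm).le) heq
  have hc0 : v (S.bas.repr z (Fin.last q, 0)) < 1 := by
    have h1 := (htr.trans hw.le).trans_lt (pow_lt_one₀ zero_le he1 hq)
    rw [← Finset.add_sum_erase _ _ (Finset.mem_univ (Fin.last q))] at h1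
    have h2 : v (∑ r ∈ Finset.univ.erase (Fin.last q),
        (-1 : F) ^ (r : ℕ) * S.bas.repr z (r, 0)) < 1 :=
      v.map_sum_lt one_ne_zero fun r hr => by
        have h3 := (hlt r (Finset.ne_of_mem_erase hr) 0).trans_le
          ((pow_le_pow_right_of_le_one' he1.le (Nat.lt_succ_iff.1 r.2)).trans (one_mul _).ge)
        simpa using lt_of_mul_lt_mul_right h3 zero_le
    simpa using v.map_sub_lt h1 h2
  let c : Fin (q + 1) → F := fun s => if s = 0 then 0 else S.bas.repr z (Fin.last q, s)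
  have hc : ∀ s, v (c s) ≤ 1 := fun s => by
    simp only [c]
    split_ifs
    · simp
    · exact hc1 s
  refine ⟨c, if_pos rfl, hc, ?_⟩
  set γ : A := ∑ s, algebraMap F A (c s) * S.J ^ (s : ℕ) with hγ
  have h4 : w (z - S.E ^ q * γ) < e ^ q := by
    have e1 : S.E ^ q * γ = ∑ k : Fin (q + 1) × Fin (q + 1),
        (if k.1 = Fin.last q then c k.2 else 0) • S.bas k := by
      rw [Fintype.sum_prod_type, Finset.sum_eq_single (Fin.last q) (fun r _ hr => by simp [hr])
        (by simp), hγ, Finset.mul_sum]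
      refine Finset.sum_congr rfl fun s _ => ?_
      rw [if_pos rfl, S.hbas, ← Algebra.smul_def, mul_smul_comm, Fin.val_last]
    conv_lhs => rw [e1, ← S.bas.sum_repr z, ← Finset.sum_sub_distrib]
    refine w.map_sum_lt heq.ne' fun k _ => ?_
    obtain ⟨r, s⟩ := k
    rw [← sub_smul, hsm, S.hbas, map_mul, map_pow, map_pow, hE, hJ, one_pow, mul_one]
    by_cases hr : r = Fin.last q
    · subst hr
      by_cases hs : s = 0
      · subst hs
        simpa [c] using mul_lt_mul_of_pos_right hc0 heq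
      · simpa [c, hs] using heq
    · simpa [hr] using hlt r hr s
  let T : Subring A :=
    { carrier := {x | w x ≤ 1 ∧ w (S.E * x - x * S.E) < e}
      one_mem' := by simpa using he0
      zero_mem' := by simpa using he0
      add_mem' := fun {x y} hx hy => ⟨w.map_add_le hx.1 hy.1, by
        rw [show S.E * (x + y) - (x + y) * S.E = (S.E * x - x * S.E) + (S.E * y - y * S.E) by
          noncomm_ring]
        exact w.map_add_lt hx.2 hy.2⟩
      neg_mem' := fun {x} hx => ⟨(w.map_neg x).trans_le hx.1, by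
        rw [show S.E * -x - -x * S.E = -(S.E * x - x * S.E) by noncomm_ring, w.map_neg]
        exact hx.2⟩
      mul_mem' := fun {x y} hx hy => ⟨w.integer.mul_mem hx.1 hy.1, by
        rw [show S.E * (x * y) - x * y * S.E = (S.E * x - x * S.E) * y + x * (S.E * y - y * S.E) by
          noncomm_ring]
        refine w.map_add_lt ?_ ?_ <;> rw [map_mul]
        · exact (mul_le_of_le_one_right' hy.1).trans_lt hx.2
        · exact (mul_le_of_le_one_left' hx.1).trans_lt hy.2⟩ }
  have hE1 : w (S.E + 1) ≤ 1 := w.map_add_le (hE ▸ he1.le) (by simp)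
  have hJT : S.J ∈ T := ⟨hJ.le, by
    have h1 := S.hJI
    rw [map_one] at h1
    have h2 : S.J * S.E - S.E * S.J = (ζ - 1) • ((S.E + 1) * S.J) := by
      rw [sub_smul, ← h1, one_smul]; noncomm_ring
    rw [w.map_sub_swap, h2, hsm, map_mul, hJ, mul_one]
    exact (mul_le_of_le_one_right' hE1).trans_lt hz⟩
  have hterm : ∀ s, algebraMap F A (c s) * S.J ^ (s : ℕ) ∈ T := fun s =>
    T.mul_mem ⟨(hal _).trans_le (hc s), by rw [Algebra.commutes]; simpa using he0⟩ (T.pow_mem hJT _)
  have hγT : γ ∈ T := T.sum_mem fun s _ => hterm s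
  have h6 : ∀ x ∈ T, ∀ r : ℕ, w (S.E ^ r * x - x * S.E ^ r) < e ^ r := fun x hx r => by
    induction r with
    | zero => simp
    | succ r ih =>
      rw [show S.E ^ (r + 1) * x - x * S.E ^ (r + 1) =
        S.E ^ r * (S.E * x - x * S.E) + (S.E ^ r * x - x * S.E ^ r) * S.E by
          rw [pow_succ]; noncomm_ring, pow_succ e]
      refine w.map_add_lt ?_ ?_ <;> rw [map_mul]
      · exact mul_lt (by rw [map_pow, hE]) hx.2 (pow_pos he0 r)
      · exact lt_mul ih hE.le he0
  have ht : w (S.E ^ q) = e ^ q := by rw [map_pow, hE]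
  have htγ : w (S.E ^ q * γ) ≤ e ^ q := by
    rw [map_mul, ht]; exact mul_le_of_le_one_right' hγT.1
  have h7 : ∀ n : ℕ, w ((S.E ^ q * γ) ^ n - (S.E ^ q) ^ n * γ ^ n) < (e ^ q) ^ n := fun n => by
    induction n with
    | zero => simp
    | succ n ih =>
      have h1 := h6 _ (T.pow_mem hγT n) q
      generalize S.E ^ q = t at *
      rw [show (t * γ) ^ (n + 1) - t ^ (n + 1) * γ ^ (n + 1) =
        ((t * γ) ^ n - t ^ n * γ ^ n) * (t * γ) - t ^ n * (t * γ ^ n - γ ^ n * t) * γ by
          rw [pow_succ, pow_succ, pow_succ]; noncomm_ring, pow_succ (e ^ q)]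
      refine w.map_sub_lt ?_ ?_ <;> rw [map_mul]
      · exact lt_mul ih htγ heq
      · refine (mul_le_of_le_one_right' hγT.1).trans_lt ?_
        rw [map_mul]
        exact mul_lt (by rw [map_pow, ht]) h1 (pow_pos heq n)
  have hwp : w ((q + 1 : ℕ) : A) = v ((q + 1 : ℕ) : F) := by
    rw [← hal, map_natCast (algebraMap F A)]
  have h8 : w (S.E ^ (q + 1) - algebraMap F A m) < e ^ (q + 1) := by
    have h1 := frob_two w hp (Commute.one_right S.E) (hE ▸ he1.le) (by simp)
    have h2 := S.hI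
    rw [map_one] at h2
    rw [h2, congrArg (algebraMap F A) ha, map_add, one_pow, one_pow, map_one, add_comm,
      add_sub_add_right_eq_sub, w.map_sub_swap, hwp] at h1
    exact h1.trans_lt hpe
  have h9 := frob_sum w hp (hwp ▸ hpe.trans (pow_lt_one₀ zero_le he1 hp.ne_zero))
    (fun s => algebraMap F A (c s) * S.J ^ (s : ℕ)) (fun i j => by
      rw [← Algebra.smul_def, ← Algebra.smul_def]
      exact ((Commute.pow_pow_self S.J _ _).smul_left _).smul_right _)
    (fun s => (hterm s).1) Finset.univ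
  have e9 : ∑ s, (algebraMap F A (c s) * S.J ^ (s : ℕ)) ^ (q + 1) =
      algebraMap F A (∑ s, c s ^ (q + 1) * b ^ (s : ℕ)) := by
    rw [map_sum]
    refine Finset.sum_congr rfl fun s _ => ?_
    rw [← Algebra.smul_def, smul_pow, pow_right_comm, S.hJ, Algebra.smul_def, map_mul, map_pow,
      map_pow]
  rw [e9, ← hγ] at h9
  refine cong_trans w (cong_pow w h4 htγ _) (cong_trans w (h7 _) ?_)
  have h10 := cong_mul w (cong_pow w h8 ((hal m).trans hm).le q) h9
    (by rw [map_pow, hal, hm]) (T.pow_mem hγT _).1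
  rwa [mul_one, pow_right_comm, pow_right_comm e, ← map_pow, ← map_mul] at h10

end Pool.Agent.Lib.MP_e8e643_al.Four
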