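import Pool.Agent.Lib.MP_e8e643_al.Main
import Pool.Agent.Lib.MP_e8e643_al.Four.Base
import Pool.Agent.Lib.MP_e8e643_al.Four.Loc

/-! Four symbol algebras of degree `p` without a common splitting field of degree `p`. -/

namespace Pool.Agent.Lib.MP_e8e643_al.Four

open Module TensorProduct

universe u

variable {F : Type u} [Field F] {Γ Γ' : Type*} [LinearOrderedCommGroupWithZero Γ]
  [LinearOrderedCommGroupWithZero Γ'] {q : ℕ} {ζ α β : F}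

/-- what is used of the algebra `(1 + m, β)` -/
structure Good2 (S : Setup2 (q + 1) Γ Γ' ζ α β) (μ : ℕ) (m : F) (A : Type u) [Ring A]
    [Algebra F A] where
  w : Valuation A Γ
  dom : IsDomain A
  rank : finrank F A = (q + 1) ^ 2
  central : Algebra.IsCentral F A
  split : ∃ n, Nonempty ((⨂[F] _ : Fin (q + 1), A) ≃ₐ[F] Matrix (Fin n) (Fin n) F)
  smul : ∀ (c : F) x, w (c • x) = S.v c * w x
  all : ∀ y ≠ 0, ∃ (c : F) (i j : ℕ), c ≠ 0 ∧ w y = S.v c * (S.x ^ i * S.y ^ j)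
  loc : ∀ z, S.c (w z) = (S.c S.x ^ μ) ^ q → S.v (tr F A z) ≤ S.v (q + 1 : ℕ) ^ 2 * w z →
    ∃ c : Fin (q + 1) → F, c 0 = 0 ∧ (∀ s, S.c (S.v (c s)) ≤ 1) ∧
      S.c (w (z ^ (q + 1) - algebraMap F A (m ^ q * ∑ s, c s ^ (q + 1) * β ^ (s : ℕ)))) <
        ((S.c S.x ^ μ) ^ q) ^ (q + 1)

theorem exists_good2 (hp : (q + 1).Prime) (hp0 : ((q + 1 : ℕ) : F) ≠ 0)
    (hζ : IsPrimitiveRoot ζ (q + 1)) (S : Setup2 (q + 1) Γ Γ' ζ α β) {μ ν : ℕ} {m : F}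
    (hμ : (μ : ZMod (q + 1)) ≠ 0) (hm : S.v m = (S.x ^ μ * S.y ^ ν) ^ (q + 1)) :
    ∃ A : AlgCat.{u} F, Nonempty (Good2 S μ m A) := by
  have := Fact.mk hp
  obtain ⟨A, ⟨T⟩⟩ := exists_sym hp.ne_zero hζ.pow_eq_one 1 (1 ^ (q + 1) + m) β
  set e := S.x ^ μ * S.y ^ ν with he
  have hμ0 : μ ≠ 0 := fun h => hμ (by rw [h, Nat.cast_zero])
  have hxy : ∀ i k : ℕ, S.x ^ i * S.y ^ k ≠ 0 := fun i k =>
    mul_ne_zero (pow_ne_zero _ S.x0) (pow_ne_zero _ S.y0)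
  have hg : ∀ r s : ℕ, e ^ r * S.y ^ s = S.x ^ (μ * r) * S.y ^ (ν * r + s) := by
    intro r s
    simp only [he, mul_pow, pow_add, pow_mul]
    ac_rfl
  have hfin : ∀ r s : Fin (q + 1), ((r : ℕ) : ZMod (q + 1)) = (s : ℕ) → r = s := fun r s h => by
    have := (ZMod.natCast_eq_natCast_iff' _ _ _).1 h
    rwa [Nat.mod_eq_of_lt r.2, Nat.mod_eq_of_lt s.2, ← Fin.ext_iff] at this
  have hd : Dist S.v fun k : Fin (q + 1) × Fin (q + 1) => e ^ (k.1 : ℕ) * S.y ^ (k.2 : ℕ) := by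
    refine ⟨fun k => (hg _ _).trans_ne (hxy _ _), fun k l c d hc hd h => ?_⟩
    simp only [hg] at h
    obtain ⟨h1, h2⟩ := S.dist _ _ _ _ _ _ hc hd h
    rw [Nat.cast_mul, Nat.cast_mul] at h1
    have h3 := mul_left_cancel₀ hμ h1
    rw [Nat.cast_add, Nat.cast_add, Nat.cast_mul, Nat.cast_mul, h3] at h2
    exact Prod.ext (hfin _ _ h3) (hfin _ _ (add_left_cancel h2))
  have he1 : e < 1 := (mul_le_of_le_one_right' (pow_le_one₀ zero_le S.y1.le)).trans_lt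
    (pow_lt_one₀ zero_le S.x1 hμ0)
  have hb : β ≠ 0 := (Valuation.ne_zero_iff S.v).1 (by rw [S.hβ]; exact pow_ne_zero _ S.y0)
  have ha : 1 ^ (q + 1) + m ≠ 0 := by
    refine (Valuation.ne_zero_iff S.v).1 ?_
    rw [one_pow, S.v.map_one_add_of_lt (by rw [hm]; exact pow_lt_one₀ zero_le he1 hp.ne_zero)]
    exact one_ne_zero
  obtain ⟨w, hw⟩ := T.exists_val hp S.v rfl hd (hxy _ _) S.y0 hm S.hβ (by simp) he1
    (by have := S.sp (μ * (q + 1)) (ν * (q + 1)); rwa [pow_mul, pow_mul, ← mul_pow] at this)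
    (S.sz _ _)
  have hw0 : ∀ x, x ≠ 0 → w x ≠ 0 := fun x hx => by rw [hw]; exact hd.nrm_ne _ hx
  have : Nontrivial A := ⟨1, 0, fun h => by simpa using congrArg w h⟩
  have : NoZeroDivisors A := ⟨fun {x y} h => by
    by_contra h0
    push Not at h0
    exact mul_ne_zero (hw0 _ h0.1) (hw0 _ h0.2) (by rw [← map_mul, h, map_zero])⟩
  have : IsDomain A := NoZeroDivisors.to_isDomain A
  have hsm : ∀ (c : F) x, w (c • x) = S.v c * w x := fun c x => by rw [hw, hw, nrm_smul]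
  refine ⟨A, ⟨⟨w, inferInstance, T.finrank_eq, T.isCentral hζ ha hb hp0,
    T.pow_split hζ hp0 ha hb, hsm, fun y hy => ?_, fun z hz htr => ?_⟩⟩⟩
  · obtain ⟨k, hk, h⟩ := exists_nrm S.v T.bas (fun k : Fin (q + 1) × Fin (q + 1) =>
      e ^ (k.1 : ℕ) * S.y ^ (k.2 : ℕ)) hy
    exact ⟨_, _, _, hk, by rw [hw, h, hg]⟩
  have hB : ∀ k, w (T.bas k) = e ^ (k.1 : ℕ) * S.y ^ (k.2 : ℕ) := fun k => by rw [hw, nrm_basis]
  have hce : S.c e = S.c S.x ^ μ := by rw [he, map_mul, map_pow, map_pow, S.cy, one_pow, mul_one]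
  have hx0 : 0 < S.c S.x := zero_lt_iff.2 ((map_ne_zero _).2 S.x0)
  refine loc T hp (S.v.map S.c.toMonoidWithZeroHom S.c.monotone')
    (w.map S.c.toMonoidWithZeroHom S.c.monotone') rfl
    (fun c x => (congrArg S.c (hsm c x)).trans (map_mul _ _ _)) ?_ ?_ (fun x k => ?_)
    (pow_pos hx0 _) (pow_lt_one₀ zero_le S.cx hμ0) ?_ ?_ (S.csz _) (fun c hc r h => ?_) z hz ?_
  · have := hB (⟨1, hp.one_lt⟩, 0)
    rw [T.hbas] at this
    rw [← hce]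
    exact congrArg S.c (by simpa using this)
  · have := hB (0, ⟨1, hp.one_lt⟩)
    rw [T.hbas] at this
    rw [← S.cy]
    exact congrArg S.c (by simpa using this)
  · have := OrderHomClass.mono S.c (le_nrm S.v T.bas (fun k : Fin (q + 1) × Fin (q + 1) =>
      e ^ (k.1 : ℕ) * S.y ^ (k.2 : ℕ)) x k)
    rw [← hw, map_mul, map_mul, map_pow, map_pow, S.cy, one_pow (k.2 : ℕ), mul_one, hce] at this
    exact this
  · exact (congrArg S.c hm).trans (by rw [map_pow, hce])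
  · rw [← pow_mul]
    exact S.csp _
  · rw [← pow_mul, ← pow_mul] at h
    have := S.cdist c 1 (μ * r) (μ * q) hc one_ne_zero (by rw [map_one, map_one, one_mul]; exact h)
    rw [Nat.cast_mul, Nat.cast_mul] at this
    exact hfin _ _ (mul_left_cancel₀ hμ this)
  · rw [T.tr_eq hζ ha hb, map_mul, map_pow] at htr
    exact OrderHomClass.mono S.c (le_of_mul_le_mul_left htr
      (pow_pos (zero_lt_iff.2 ((Valuation.ne_zero_iff _).2 hp0)) _))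

section

variable {p : ℕ} (hp : p.Prime) (S : Setup p Γ ζ α β) {L : Type*} [Field L] [Algebra F L]
  [FiniteDimensional F L] (hL : finrank F L = p) (w w' : Valuation L Γ)
  (hw : ∀ (c : F) x, w (c • x) = S.v c * w x) (hw' : ∀ (c : F) x, w' (c • x) = S.v c * w' x)
include hp hL hw hw'

theorem val_one {z : L} {c : F} {r s : ℕ} (hc : c ≠ 0) (hz : w z = S.v c * (S.x ^ r * S.y ^ s))
    (hrs : (r : ZMod p) ≠ 0 ∨ (s : ZMod p) ≠ 0) : w' z = w z := by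
  have := Fact.mk hp
  have hwn : ∀ n : ℕ, w z ^ n = S.v (c ^ n) * (S.x ^ (n * r) * S.y ^ (n * s)) := by
    intro n
    rw [hz, map_pow, mul_pow, mul_pow, ← pow_mul, ← pow_mul, mul_comm r, mul_comm s]
  refine val_unique S.v hL w w' hw hw' ((Valuation.ne_zero_iff w).1 (hz ▸ mul_ne_zero
    ((Valuation.ne_zero_iff _).2 hc) (mul_ne_zero (pow_ne_zero _ S.x0) (pow_ne_zero _ S.y0))))
    fun d d' k l hd hd' h => ?_
  rw [hwn, hwn, ← mul_assoc, ← mul_assoc (S.v d'), ← map_mul, ← map_mul] at h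
  obtain ⟨h4, h5⟩ := S.dist _ _ _ _ _ _ (mul_ne_zero hd (pow_ne_zero _ hc))
    (mul_ne_zero hd' (pow_ne_zero _ hc)) h
  push_cast at h4 h5
  exact hrs.elim (fun h => mul_right_cancel₀ h h4) fun h => mul_right_cancel₀ h h5

theorem val_eq (hall : ∀ l ≠ 0, ∃ (c : F) (i j : ℕ), c ≠ 0 ∧ w l = S.v c * (S.x ^ i * S.y ^ j))
    {z : L} (hz0 : z ≠ 0) {c : F} {r s : ℕ} (hc : c ≠ 0) (hz : w z = S.v c * (S.x ^ r * S.y ^ s))
    (hr : (r : ZMod p) ≠ 0) (l : L) : w' l = w l := by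
  by_cases hl : l = 0
  · simp [hl]
  obtain ⟨d, i, j, hd, h⟩ := hall l hl
  by_cases hi : (i : ZMod p) = 0
  · have h1 := val_one hp S hL w w' hw hw' (z := l * z) (r := i + r) (s := j + s)
      (mul_ne_zero hd hc) (by
        rw [map_mul, h, hz, map_mul, pow_add, pow_add]
        simp only [mul_assoc, mul_comm, mul_left_comm]) (Or.inl (by simpa [hi] using hr))
    rw [map_mul, map_mul, val_one hp S hL w w' hw hw' hc hz (Or.inl hr)] at h1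
    exact mul_right_cancel₀ ((Valuation.ne_zero_iff w).2 hz0) h1
  · exact val_one hp S hL w w' hw hw' hd h (Or.inl hi)

end

theorem no_field (hp : (q + 1).Prime) (S : Setup2 (q + 1) Γ Γ' ζ α β) {A₀ A₁ A₂ A₃ : Type u}
    [Ring A₀] [Algebra F A₀] [Ring A₁] [Algebra F A₁] [Ring A₂] [Algebra F A₂] [Ring A₃]
    [Algebra F A₃] (G₀ : Good S.toSetup 0 (1, 0) (0, 1) A₀) (G₁ : Good S.toSetup 1 (0, 1) (1, 0) A₁)
    (G₂ : Good2 S 1 α A₂) (G₃ : Good2 S q (α ^ q * (β / (1 - β))) A₃) (L : Type*) [Field L]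
    [Algebra F L] (hL : finrank F L ∣ q + 1)
    (e₀ : ∃ n, Nonempty (L ⊗[F] A₀ ≃ₐ[L] Matrix (Fin n) (Fin n) L))
    (e₁ : ∃ n, Nonempty (L ⊗[F] A₁ ≃ₐ[L] Matrix (Fin n) (Fin n) L))
    (e₂ : ∃ n, Nonempty (L ⊗[F] A₂ ≃ₐ[L] Matrix (Fin n) (Fin n) L))
    (e₃ : ∃ n, Nonempty (L ⊗[F] A₃ ≃ₐ[L] Matrix (Fin n) (Fin n) L)) : False := by
  have := Fact.mk hp
  have : FiniteDimensional F L := .of_finrank_pos (Nat.pos_of_dvd_of_pos hL hp.pos)
  obtain ⟨_, ⟨e₀⟩⟩ := e₀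
  obtain ⟨_, ⟨e₁⟩⟩ := e₁
  obtain ⟨_, ⟨e₂⟩⟩ := e₂
  obtain ⟨_, ⟨e₃⟩⟩ := e₃
  have := G₀.dom
  have := G₁.dom
  have := G₂.dom
  have := G₃.dom
  obtain ⟨hLp, φ₀, hφ₀⟩ := emb hp G₀.rank L hL e₀
  obtain ⟨-, φ₁, hφ₁⟩ := emb hp G₁.rank L hL e₁
  obtain ⟨-, φ₂, hφ₂⟩ := emb hp G₂.rank L hL e₂
  obtain ⟨-, φ₃, hφ₃⟩ := emb hp G₃.rank L hL e₃
  obtain ⟨z₀, hz₀⟩ : ∃ z₀ : L, z₀ ∉ (⊥ : Subalgebra F L) := by
    by_contra h
    push Not at h
    have := Subalgebra.bot_eq_top_iff_finrank_eq_one.1 (eq_top_iff.2 fun z _ => h z)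
    have := hp.one_lt
    omega
  obtain ⟨c₀, hc₀⟩ := G₀.cls (φ₀ z₀)
  set z := z₀ - algebraMap F L c₀ with hzd
  have hz : z ≠ 0 := fun h => hz₀ (Algebra.mem_bot.2 ⟨c₀, (sub_eq_zero.1 h).symm⟩)
  have hz' : φ₀ z₀ - algebraMap F A₀ c₀ = φ₀ z := by rw [hzd, map_sub, AlgHom.commutes]
  rw [hz'] at hc₀
  obtain ⟨c, r, s, hc, hrs, hw⟩ := hc₀ ((map_ne_zero φ₀).2 hz)
  simp only [one_mul, zero_mul, add_zero, zero_add] at hw
  let u₀ := G₀.w.comap φ₀.toRingHom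
  let u₁ := G₁.w.comap φ₁.toRingHom
  let u₂ := G₂.w.comap φ₂.toRingHom
  let u₃ := G₃.w.comap φ₃.toRingHom
  have s₀ : ∀ (c : F) x, u₀ (c • x) = S.v c * u₀ x := fun c x => by
    simpa [u₀] using G₀.smul c (φ₀ x)
  have s₁ : ∀ (c : F) x, u₁ (c • x) = S.v c * u₁ x := fun c x => by
    simpa [u₁] using G₁.smul c (φ₁ x)
  have s₂ : ∀ (c : F) x, u₂ (c • x) = S.v c * u₂ x := fun c x => by
    simpa [u₂] using G₂.smul c (φ₂ x)
  have s₃ : ∀ (c : F) x, u₃ (c • x) = S.v c * u₃ x := fun c x => by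
    simpa [u₃] using G₃.smul c (φ₃ x)
  change u₀ z = _ at hw
  have hwn : ∀ n : ℕ, u₀ (z ^ n) = S.v (c ^ n) * (S.x ^ (n * r) * S.y ^ (n * s)) := by
    intro n
    rw [map_pow, hw, map_pow, mul_pow, mul_pow, ← pow_mul, ← pow_mul, mul_comm r, mul_comm s]
  have low : ∀ l, S.v (tr F A₀ (φ₀ l)) ≤ S.v (q + 1 : ℕ) ^ 2 * u₀ l := fun l => G₀.low rfl _
  by_cases hr : (r : ZMod (q + 1)) = 0
  · have hs := hrs.resolve_left (not_not.2 hr)
    set n := (-(s : ZMod (q + 1))⁻¹).val with hn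
    have h3 : u₁ (z ^ n) = u₀ (z ^ n) := by
      rw [map_pow, map_pow, val_one hp S.toSetup hLp u₀ u₁ s₀ s₁ hc hw hrs]
    have h4 := G₁.high rfl (φ₁ (z ^ n)) (c ^ n) (n * r) (n * s) (pow_ne_zero _ hc)
      (h3.trans (hwn n)) (by simp [hr]) (by simp [hn, hs])
    rw [hφ₁, ← hφ₀] at h4
    exact not_lt.2 ((low _).trans (congrArg _ h3).ge) h4
  have hz₂ := (val_one hp S.toSetup hLp u₀ u₂ s₀ s₂ hc hw hrs).trans hw
  have hall : ∀ l ≠ 0, ∃ (c : F) (i j : ℕ), c ≠ 0 ∧ u₂ l = S.v c * (S.x ^ i * S.y ^ j) :=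
    fun l hl => G₂.all _ ((map_ne_zero φ₂).2 hl)
  have h02 := val_eq hp S.toSetup hLp u₂ u₀ s₂ s₀ hall hz hc hz₂ hr
  have h32 := val_eq hp S.toSetup hLp u₂ u₃ s₂ s₃ hall hz hc hz₂ hr
  let U := u₂.map S.c.toMonoidWithZeroHom S.c.monotone'
  let V := S.v.map S.c.toMonoidWithZeroHom S.c.monotone'
  have hU : ∀ (c : F) x, U (c • x) = V c * U x := fun c x =>
    (congrArg S.c (s₂ c x)).trans (map_mul _ _ _)
  have hal : ∀ c, U (algebraMap F L c) = V c := fun c => by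
    rw [Algebra.algebraMap_eq_smul_one, hU, map_one, mul_one]
  set x := S.c S.x with hx
  have hx0 : x ≠ 0 := (map_ne_zero _).2 S.x0
  have hα : V α = x ^ (q + 1) := (congrArg S.c S.hα).trans (map_pow _ _ _)
  have hβ : V β = 1 := (congrArg S.c S.hβ).trans (by rw [map_pow, S.cy, one_pow])
  have hβ1 : S.v (1 - β) = 1 :=
    S.v.map_one_sub_of_lt (by rw [S.hβ]; exact pow_lt_one₀ zero_le S.y1 hp.ne_zero)
  have hβ2 : V (1 - β) = 1 := (congrArg S.c hβ1).trans (map_one _)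
  have hβ0 : 1 - β ≠ 0 := (Valuation.ne_zero_iff V).1 (hβ2 ▸ one_ne_zero)
  have hα0 : α ≠ 0 := (Valuation.ne_zero_iff V).1 (hα ▸ pow_ne_zero _ hx0)
  obtain ⟨π, hπ⟩ : ∃ π, U π = x := by
    obtain ⟨n, hn⟩ : ∃ n : ℕ, ((n * r : ℕ) : ZMod (q + 1)) = (1 : ℕ) :=
      ⟨(r : ZMod (q + 1))⁻¹.val, by simp [hr]⟩
    have h1 := Nat.div_add_mod (n * r) (q + 1)
    rw [(ZMod.natCast_eq_natCast_iff' _ _ _).1 hn, Nat.mod_eq_of_lt hp.one_lt] at h1
    have h2 : U (z ^ n) = V (c ^ n * α ^ (n * r / (q + 1))) * x := by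
      refine (congrArg S.c ((h02 _).symm.trans (hwn n))).trans ?_
      rw [map_mul V, map_pow V α, hα, ← pow_mul, mul_assoc, ← pow_succ, h1, map_mul, map_mul,
        map_pow S.c, map_pow S.c, S.cy, one_pow, mul_one]
      rfl
    refine ⟨(c ^ n * α ^ (n * r / (q + 1)))⁻¹ • z ^ n, ?_⟩
    rw [hU, h2, map_inv₀, inv_mul_cancel_left₀
      ((Valuation.ne_zero_iff V).2 (mul_ne_zero (pow_ne_zero _ hc) (pow_ne_zero _ hα0)))]
  obtain ⟨t, rfl⟩ : ∃ t, q = t + 1 := ⟨q - 1, by have := hp.two_le; omega⟩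
  obtain ⟨d, hd0, hd, h₂⟩ := G₂.loc (φ₂ (π ^ (t + 1)))
    (show U _ = _ by rw [map_pow, hπ, pow_one])
    (by rw [hφ₂, ← hφ₀]; exact (low _).trans (congrArg _ (h02 _)).le)
  obtain ⟨b, hb0, hb, h₃⟩ := G₃.loc (φ₃ (α ^ t • π))
    ((congrArg S.c (h32 _)).trans (show U _ = _ by
      rw [hU, map_pow, hα, hπ, ← pow_mul, ← pow_succ, ← pow_mul]; congr 1; ring))
    (by rw [hφ₃, ← hφ₀]; exact (low _).trans (congrArg _ ((h02 _).trans (h32 _).symm)).le)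
  rw [← map_pow, ← φ₂.commutes, ← map_sub] at h₂
  rw [← map_pow, ← φ₃.commutes, ← map_sub] at h₃
  replace h₃ := (congrArg S.c (h32 _)).symm.trans_lt h₃
  change U _ < _ at h₂ h₃
  set D := ∑ s, d s ^ (t + 1 + 1) * β ^ (s : ℕ)
  set B := ∑ s, b s ^ (t + 1 + 1) * β ^ (s : ℕ) with hB
  set g := β / (1 - β) with hg
  set ρ := α⁻¹ • π ^ (t + 1 + 1) with hρ
  have hα' : algebraMap F L α ≠ 0 := (map_ne_zero _).2 hα0
  have hρ1 : U ρ = 1 := by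
    rw [hρ, hU, map_inv₀, map_pow, hα, hπ, inv_mul_cancel₀ (pow_ne_zero _ hx0)]
  have scale : ∀ (n : ℕ) (l l' : L), l = α ^ n • l' → U l < (x ^ (t + 1 + 1)) ^ n → U l' < 1 := by
    intro n l l' h1 h2
    rw [h1, hU, map_pow, hα] at h2
    exact lt_of_mul_lt_mul_left (h2.trans_eq (mul_one _).symm) zero_le
  have h4 : U (ρ ^ (t + 1) - algebraMap F L D) < 1 := by
    refine scale (t + 1) _ _ ?_ (h₂.trans_eq (by rw [pow_one, pow_right_comm]))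
    simp only [hρ, Algebra.smul_def, map_mul, map_pow, map_inv₀, mul_pow, inv_pow]
    field_simp
    ring
  have h5 : U (ρ - algebraMap F L (g ^ (t + 1) * B)) < 1 := by
    refine scale ((t + 1) * (t + 1)) _ _ ?_ (h₃.trans_eq (by
      rw [← pow_mul, ← pow_mul, ← pow_mul]; congr 1; ring))
    simp only [hρ, Algebra.smul_def, map_mul, map_pow, map_inv₀, mul_pow]
    field_simp
    ring
  set G := g ^ (t + 1) * B with hG
  have hG1 : V G = 1 := by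
    rw [← hal, ← hρ1]
    exact U.map_eq_of_sub_lt (by rw [U.map_sub_swap, hρ1]; exact h5)
  have h6 : V (D - G ^ (t + 1)) < 1 := by
    have := cong_pow U h5 ((hal G).trans hG1).le (t + 1)
    rw [U.map_sub_swap] at h4
    rw [← hal, map_sub, map_pow]
    exact cong_trans U h4 (by rwa [one_pow] at this)
  have hg1 : V g = 1 := by rw [hg, map_div₀, hβ, hβ2, div_one]
  refine S.key (fun s => g * b s) d G (by simp [hb0]) hd0
    (fun s => show V _ ≤ 1 by rw [map_mul, hg1, one_mul]; exact hb s) hd hG1 ?_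
  have e1 : ∑ s, (g * b s) ^ (t + 1 + 1) * β ^ (s : ℕ) = g * G := by
    rw [hG, hB, ← mul_assoc, ← pow_succ', Finset.mul_sum]
    exact Finset.sum_congr rfl fun s _ => by ring
  have e2 : (1 - β) * (g * G) * D - β * G ^ (t + 1 + 1) = β * G * (D - G ^ (t + 1)) := by
    rw [← mul_assoc, hg, mul_div_cancel₀ _ hβ0]; ring
  rw [e1, e2]
  change V _ < 1
  rwa [map_mul, map_mul, hβ, hG1, one_mul, one_mul]

theorem main (hp : (q + 1).Prime) (hp0 : ((q + 1 : ℕ) : F) ≠ 0) (hζ : IsPrimitiveRoot ζ (q + 1))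
    (S : Setup2 (q + 1) Γ Γ' ζ α β) : ∃ A : Fin 4 → CSA.{u, u} F,
      (∀ i, finrank F (A i) = (q + 1) ^ 2 ∧
        ∃ n, Nonempty ((⨂[F] _ : Fin (q + 1), A i) ≃ₐ[F] Matrix (Fin n) (Fin n) F)) ∧
      ∀ (L : Type u) [Field L] [Algebra F L], finrank F L ∣ q + 1 →
        ¬ ∀ i, ∃ n, Nonempty (L ⊗[F] A i ≃ₐ[L] Matrix (Fin n) (Fin n) L) := by
  have := Fact.mk hp
  have mk : ∀ (P : ∀ (A : Type u) [Ring A] [Algebra F A], Prop) (A : AlgCat.{u} F), IsDomain A →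
      Algebra.IsCentral F A → finrank F A = (q + 1) ^ 2 → P A → ∃ A : CSA.{u, u} F, P A := by
    intro P A _ _ hr h
    have : FiniteDimensional F A := .of_finrank_pos (by rw [hr]; exact pow_pos hp.pos _)
    have : IsSimpleRing A :=
      @DivisionRing.isSimpleRing A (divisionRingOfFiniteDimensional F A)
    exact ⟨⟨A⟩, h⟩
  obtain ⟨A₀, ⟨G₀⟩⟩ := exists_good hp hp0 hζ S.toSetup (Or.inl rfl) (μ := (1, 0)) (ν := (0, 1))
    (by simp) fun r s h1 h2 => by simpa using And.intro h1 h2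
  obtain ⟨A₁, ⟨G₁⟩⟩ := exists_good hp hp0 hζ S.toSetup (Or.inr rfl) (μ := (0, 1)) (ν := (1, 0))
    (by simp) fun r s h1 h2 => by simpa using And.intro h2 h1
  obtain ⟨A₂, ⟨G₂⟩⟩ := exists_good2 hp hp0 hζ S (μ := 1) (ν := 0) (m := α) (by simp)
    (by simp [S.hα])
  obtain ⟨A₃, ⟨G₃⟩⟩ := exists_good2 hp hp0 hζ S (μ := q) (ν := 1) (m := α ^ q * (β / (1 - β)))
    (fun h => by
      have := Nat.le_of_dvd (by have := hp.two_le; omega) ((ZMod.natCast_eq_zero_iff _ _).1 h)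
      omega)
    (by
      rw [map_mul, map_pow, map_div₀, S.hα, S.hβ, S.v.map_one_sub_of_lt
        (by rw [S.hβ]; exact pow_lt_one₀ zero_le S.y1 hp.ne_zero), div_one, pow_one, mul_pow,
        pow_right_comm])
  obtain ⟨B₀, ⟨G₀⟩⟩ := mk (fun A _ _ => Nonempty (Good S.toSetup 0 (1, 0) (0, 1) A)) A₀ G₀.dom
    G₀.central G₀.rank ⟨G₀⟩
  obtain ⟨B₁, ⟨G₁⟩⟩ := mk (fun A _ _ => Nonempty (Good S.toSetup 1 (0, 1) (1, 0) A)) A₁ G₁.dom
    G₁.central G₁.rank ⟨G₁⟩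
  obtain ⟨B₂, ⟨G₂⟩⟩ := mk (fun A _ _ => Nonempty (Good2 S 1 α A)) A₂ G₂.dom G₂.central G₂.rank ⟨G₂⟩
  obtain ⟨B₃, ⟨G₃⟩⟩ := mk (fun A _ _ => Nonempty (Good2 S q (α ^ q * (β / (1 - β))) A)) A₃ G₃.dom
    G₃.central G₃.rank ⟨G₃⟩
  refine ⟨![B₀, B₁, B₂, B₃], fun i => ?_, fun L _ _ hL h =>
    no_field hp S G₀ G₁ G₂ G₃ L hL (h 0) (h 1) (h 2) (h 3)⟩
  fin_cases i
  exacts [⟨G₀.rank, G₀.split⟩, ⟨G₁.rank, G₁.split⟩, ⟨G₂.rank, G₂.split⟩, ⟨G₃.rank, G₃.split⟩]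

end Pool.Agent.Lib.MP_e8e643_al.Four
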