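import Mathlib

/-! The quadratic differential `dy² / (y (1 - y))` is not a product of two exact forms in
characteristic `p`. -/

namespace Pool.Agent.Lib.MP_e8e643_al.Four

open Polynomial

variable {k : Type*} [Field k]

theorem exists_const_root (A : k[X]) (c : k) (n : ℕ) (h : (X - C c) ^ n ∣ derivative A) :
    ∃ R, derivative R = 0 ∧ (X - C c) ^ (n + 1) ∣ A - R := by
  induction n with
  | zero => exact ⟨C (A.eval c), derivative_C, by simpa using X_sub_C_dvd_sub_C_eval⟩
  | succ n ih =>
    obtain ⟨R, hR, G, hG⟩ := ih ((pow_dvd_pow _ n.le_succ).trans h)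
    have h1 : derivative A = (X - C c) ^ n * (C ((n + 1 : ℕ) : k) * G + (X - C c) * derivative G) := by
      have := congrArg derivative hG
      rw [derivative_sub, hR, sub_zero, derivative_mul, derivative_X_sub_C_pow] at this
      rw [this]
      simp only [Nat.add_sub_cancel]
      ring
    rw [h1, pow_succ, mul_dvd_mul_iff_left (pow_ne_zero _ (X_sub_C_ne_zero c)),
      dvd_add_left (dvd_mul_right _ _), dvd_iff_isRoot] at h
    have h2 : ((n + 1 : ℕ) : k) * G.eval c = 0 := by simpa using h
    refine ⟨R + C (G.eval c) * (X - C c) ^ (n + 1), ?_, ?_⟩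
    · rw [derivative_add, hR, zero_add, derivative_C_mul, derivative_X_sub_C_pow, ← mul_assoc,
        ← C_mul, mul_comm (G.eval c), h2, C_0, zero_mul]
    · rw [← sub_sub, hG, mul_comm (C _), ← mul_sub, pow_succ _ (n + 1)]
      exact mul_dvd_mul_left _ X_sub_C_dvd_sub_C_eval

theorem exists_const_deg (A : k[X]) :
    ∃ R, derivative R = 0 ∧ (A - R = 0 ∨ ((A - R).natDegree : k) ≠ 0) := by
  induction h : A.support.card using Nat.strong_induction_on generalizing A with
  | _ n ih =>
    by_cases h0 : A = 0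
    · exact ⟨0, derivative_zero, Or.inl (by simp [h0])⟩
    by_cases h1 : (A.natDegree : k) = 0
    · obtain ⟨R, hR, h2⟩ := ih _ (h ▸ eraseLead_support_card_lt h0) A.eraseLead rfl
      refine ⟨R + monomial A.natDegree A.leadingCoeff, ?_, ?_⟩
      · rw [derivative_add, hR, derivative_monomial, h1]; simp
      · have : A - (R + monomial A.natDegree A.leadingCoeff) = A.eraseLead - R := by
          rw [← self_sub_monomial_natDegree_leadingCoeff]; ring
        rwa [this]
    · exact ⟨0, derivative_zero, Or.inr (by simpa using h1)⟩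

theorem iter_const (N H : k[X]) (hN : derivative N = 0) (n : ℕ) :
    derivative^[n] (N * H) = N * derivative^[n] H := by
  induction n with
  | zero => rfl
  | succ n ih =>
    rw [Function.iterate_succ_apply', Function.iterate_succ_apply', ih, derivative_mul, hN]
    simp

theorem no_prod [IsAlgClosed k] {p : ℕ} (hp : p.Prime) (hk : (p : k) = 0) (A B W : k[X])
    (hW : W ≠ 0) : X * (1 - X) * derivative A * derivative B ≠ W ^ p := by
  classical
  intro h
  obtain ⟨q, rfl⟩ : ∃ q, p = q + 1 := ⟨p - 1, by have := hp.pos; omega⟩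
  have := Fact.mk hp
  have : CharP k (q + 1) := (CharP.charP_iff_prime_eq_zero hp).2 hk
  have hWp : W ^ (q + 1) ≠ 0 := pow_ne_zero _ hW
  have hA : derivative A ≠ 0 := fun h0 => hWp (by rw [← h, h0]; simp)
  have hB : derivative B ≠ 0 := fun h0 => hWp (by rw [← h, h0]; simp)
  have h1X : (1 - X : k[X]) ≠ 0 := fun h0 => hWp (by rw [← h, h0]; simp)
  have hD : ∀ H : k[X], derivative^[q + 1] H = 0 := fun H => by
    ext m
    obtain ⟨c, hc⟩ := (Nat.dvd_factorial hp.pos le_rfl).trans
      (Nat.factorial_dvd_descFactorial (m + (q + 1)) (q + 1))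
    rw [coeff_iterate_derivative, hc, nsmul_eq_mul, Nat.cast_mul, hk]
    simp
  have hT : ∀ R, derivative R = 0 →
      derivative^[q] (A * derivative B) = derivative^[q] ((A - R) * derivative B) := fun R hR => by
    rw [sub_mul, iterate_derivative_sub, iter_const R _ hR, ← Function.iterate_succ_apply, hD]
    simp
  obtain ⟨R, hR, h2⟩ := exists_const_deg A
  have hA' : derivative (A - R) = derivative A := by rw [derivative_sub, hR, sub_zero]
  have hAR : A - R ≠ 0 := fun h0 => hA (by rw [← hA', h0, derivative_zero])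
  have h2 := h2.resolve_left hAR
  obtain ⟨n, hn⟩ : ∃ n, (A - R).natDegree = n + 1 :=
    Nat.exists_eq_succ_of_ne_zero fun h0 => h2 (by rw [h0, Nat.cast_zero])
  have h3 : (derivative A).natDegree = n := by
    rw [← hA']
    refine le_antisymm (by have := natDegree_derivative_le (A - R); omega) (le_natDegree_of_ne_zero ?_)
    rw [coeff_derivative, ← hn, coeff_natDegree]
    refine mul_ne_zero (leadingCoeff_ne_zero.2 hAR) ?_
    rw [hn] at h2
    exact_mod_cast h2
  have h4 : (1 - X : k[X]).natDegree = 1 := by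
    rw [← natDegree_neg, neg_sub, ← C_1, natDegree_X_sub_C]
  have h5 := congrArg natDegree h
  rw [natDegree_mul (mul_ne_zero (mul_ne_zero X_ne_zero h1X) hA) hB,
    natDegree_mul (mul_ne_zero X_ne_zero h1X) hA, natDegree_mul X_ne_zero h1X, natDegree_X, h4, h3,
    natDegree_pow] at h5
  have h6 : ((A - R) * derivative B).natDegree + 1 = (q + 1) * W.natDegree := by
    rw [natDegree_mul hAR hB, hn]; omega
  obtain ⟨w, hw⟩ : ∃ w, W.natDegree = w + 1 :=
    Nat.exists_eq_succ_of_ne_zero fun h0 => by rw [h0] at h6; omega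
  have h7 : ((A - R) * derivative B).natDegree = (q + 1) * w + q := by
    rw [hw, mul_add] at h6; omega
  have hT0 : derivative^[q] (A * derivative B) ≠ 0 := by
    intro h0
    have := congrArg (coeff · ((q + 1) * w)) h0
    simp only [hT R hR, coeff_iterate_derivative, coeff_zero, nsmul_eq_mul] at this
    rw [← h7, coeff_natDegree, h7] at this
    refine mul_ne_zero ?_ (leadingCoeff_ne_zero.2 (mul_ne_zero hAR hB)) this
    rw [Ne, CharP.cast_eq_zero_iff k (q + 1), Nat.descFactorial_eq_prod_range,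
      hp.prime.dvd_finsetProd_iff]
    rintro ⟨i, hi, hd⟩
    have hi' := Finset.mem_range.1 hi
    rw [Nat.add_sub_assoc hi'.le, Nat.dvd_add_right (dvd_mul_right _ _)] at hd
    have := Nat.le_of_dvd (by omega) hd
    omega
  have hdvd : W ^ (q + 1) ∣ derivative^[q] (A * derivative B) := by
    rw [IsAlgClosed.dvd_iff_roots_le_roots hWp hT0, Multiset.le_iff_count]
    intro c
    rw [count_roots, count_roots, le_rootMultiplicity_iff hT0]
    obtain ⟨S, hS, hd⟩ := exists_const_root A c _ (pow_rootMultiplicity_dvd _ c)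
    have e1 : rootMultiplicity c (X * (1 - X) : k[X]) ≤ 1 := by
      by_contra h0
      obtain ⟨r1, r2⟩ := (one_lt_rootMultiplicity_iff_isRoot (mul_ne_zero X_ne_zero h1X)).1
        (not_le.1 h0)
      simp only [IsRoot.def, derivative_mul, derivative_X, derivative_sub, derivative_one, eval_mul,
        eval_add, eval_sub, eval_X, eval_one, eval_zero] at r1 r2
      have : (1 : k) = 0 := by linear_combination (1 - 2 * c) * r2 + 4 * r1
      exact one_ne_zero this
    have e2 : rootMultiplicity c (W ^ (q + 1)) ≤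
        rootMultiplicity c (derivative A) + 1 + rootMultiplicity c (derivative B) := by
      rw [← h, rootMultiplicity_mul (h ▸ hWp),
        rootMultiplicity_mul (mul_ne_zero (mul_ne_zero X_ne_zero h1X) hA)]
      omega
    obtain ⟨H, hH⟩ : (X - C c) ^ rootMultiplicity c (W ^ (q + 1)) ∣ (A - S) * derivative B :=
      (pow_dvd_pow _ e2).trans (by
        rw [pow_add]; exact mul_dvd_mul hd (pow_rootMultiplicity_dvd _ c))
    rw [hT S hS, hH, iter_const _ _ ?_]
    · exact dvd_mul_right _ _
    · have e3 : ((rootMultiplicity c (W ^ (q + 1)) : ℕ) : k) = 0 := by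
        rw [← count_roots, roots_pow, Multiset.count_nsmul, Nat.cast_mul, hk, zero_mul]
      rw [derivative_X_sub_C_pow, e3]; simp
  have h8 := natDegree_le_of_dvd hdvd hT0
  have h9 := natDegree_iterate_derivative ((A - R) * derivative B) q
  rw [hT R hR, natDegree_pow] at h8
  omega

theorem exists_prim {p : ℕ} [NeZero p] (hp : p.Prime) (hk : (p : k) = 0) (c : Fin p → k[X])
    (hc : c 0 = 0) : ∃ A : k[X], X * derivative A = ∑ s, c s ^ p * X ^ (s : ℕ) := by
  have : CharP k p := (CharP.charP_iff_prime_eq_zero hp).2 hk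
  refine ⟨∑ s : Fin p, C ((s : ℕ) : k)⁻¹ * (c s ^ p * X ^ (s : ℕ)), ?_⟩
  rw [derivative_sum, Finset.mul_sum]
  refine Finset.sum_congr rfl fun s _ => ?_
  by_cases hs : s = 0
  · simp [hs, hc, hp.ne_zero]
  have h1 : ((s : ℕ) : k) ≠ 0 := fun h => by
    have := Nat.le_of_dvd (Fin.pos_iff_ne_zero.2 hs) ((CharP.cast_eq_zero_iff k p _).1 h)
    have := s.2
    omega
  obtain ⟨t, ht⟩ : ∃ t, (s : ℕ) = t + 1 := Nat.exists_eq_succ_of_ne_zero (by simpa using hs)
  have h2 : C ((s : ℕ) : k)⁻¹ * C ((s : ℕ) : k) = 1 := by rw [← C_mul, inv_mul_cancel₀ h1, C_1]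
  rw [derivative_C_mul, derivative_mul, derivative_pow, hk, derivative_X_pow]
  have h3 : (X : k[X]) ^ (s : ℕ) = X * X ^ ((s : ℕ) - 1) := by rw [ht, pow_succ']; simp
  simp only [C_0, zero_mul, zero_add]
  linear_combination (c s ^ p * X * X ^ ((s : ℕ) - 1)) * h2 - c s ^ p * h3

theorem core [IsAlgClosed k] {p : ℕ} [NeZero p] (hp : p.Prime) (hk : (p : k) = 0)
    (c d : Fin p → k[X]) (W : k[X]) (hc : c 0 = 0) (hd : d 0 = 0) (hW : W ≠ 0) :
    (1 - X) * (∑ s, c s ^ p * X ^ (s : ℕ)) * (∑ s, d s ^ p * X ^ (s : ℕ)) ≠ X * W ^ p := by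
  obtain ⟨A, hA⟩ := exists_prim hp hk c hc
  obtain ⟨B, hB⟩ := exists_prim hp hk d hd
  rw [← hA, ← hB]
  intro h
  exact no_prod hp hk A B W hW (mul_left_cancel₀ X_ne_zero (by linear_combination h))

end Pool.Agent.Lib.MP_e8e643_al.Four
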